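import Pool.Agent.Lib.MP_e50cbd_co.Main

/-!
# A polynomial bound for the number of reflection moves enlarging a regular polygon

The Euclidean plane is identified with the complex numbers.  For every `N > 6` the pieces at the
vertices of a regular `N`-gon can be moved by at most `50 * N ^ 6` legal moves onto the vertex set
of a larger regular `N`-gon.
-/

set_option autoImplicit false

namespace Pool.Agent.Results.MP_e50cbd_co.PolynomialEnlargement

/-- A legal move: some piece `i` is replaced by its point reflection in another piece `j`. -/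
def LegalMove {N : ℕ} (p q : Fin N → ℂ) : Prop :=
  ∃ i j : Fin N, i ≠ j ∧ q = Function.update p i (2 * p j - p i)

/-- `ReachIn n p q`: the configuration `p` can be turned into `q` by exactly `n` legal moves. -/
inductive ReachIn {N : ℕ} : ℕ → (Fin N → ℂ) → (Fin N → ℂ) → Prop
  | start (p : Fin N → ℂ) : ReachIn 0 p p
  | move {n : ℕ} {p q r : Fin N → ℂ} : ReachIn n p q → LegalMove q r → ReachIn (n + 1) p r

/-- The `N` pieces at the vertices `exp (2 π i k / N)` of a regular `N`-gon. -/
noncomputable def regularPolygon (N : ℕ) : Fin N → ℂ :=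
  fun k => Complex.exp (2 * Real.pi * Complex.I * (k : ℕ) / N)

/-- The set of positions of `q` is the image of the set of positions of `p` under a similarity of
the plane whose ratio exceeds `1`. -/
def LargerSimilar {N : ℕ} (p q : Fin N → ℂ) : Prop :=
  ∃ (f : ℂ → ℂ) (r : ℝ), 1 < r ∧ (∀ x y : ℂ, dist (f x) (f y) = r * dist x y) ∧
    f '' Set.range p = Set.range q

theorem reachIn_of_reach {N n : ℕ} {p q : Fin N → ℂ} (h : MPe50cbd.Reach n p q) :
    ∃ m ≤ n, ReachIn m p q := by
  induction h with
  | refl n p => exact ⟨0, Nat.zero_le _, ReachIn.start p⟩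
  | step h h' ih =>
    obtain ⟨m, hm, hr⟩ := ih
    obtain ⟨i, j, hij, rfl⟩ := h'
    refine ⟨m + 1, by omega, ReachIn.move hr ⟨i, j, hij, ?_⟩⟩
    rw [nsmul_eq_mul]
    norm_num

theorem result (N : ℕ) (hN : 6 < N) :
    ∃ n : ℕ, n ≤ 50 * N ^ 6 ∧ ∃ q : Fin N → ℂ,
      ReachIn n (regularPolygon N) q ∧ LargerSimilar (regularPolygon N) q := by
  obtain ⟨U, C, hU, h⟩ := MPe50cbd.main_complex N hN
  have hp : (fun k : Fin N => MPe50cbd.rt N ^ (k : ℕ)) = regularPolygon N := by
    funext k
    unfold MPe50cbd.rt regularPolygon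
    rw [← Complex.exp_nat_mul]
    congr 1
    ring
  obtain ⟨n, hn, hr⟩ := reachIn_of_reach h
  rw [hp] at hr
  refine ⟨n, hn, _, hr, fun x => U * x + C, ‖U‖, hU, ?_, ?_⟩
  · intro x y
    rw [dist_eq_norm, dist_eq_norm, ← norm_mul]
    congr 1
    ring
  · ext x
    constructor
    · rintro ⟨y, ⟨k, rfl⟩, rfl⟩
      exact ⟨k, by simp only [← congrFun hp k]⟩
    · rintro ⟨k, rfl⟩
      exact ⟨regularPolygon N k, ⟨k, rfl⟩, by simp only [← congrFun hp k]⟩

end Pool.Agent.Results.MP_e50cbd_co.PolynomialEnlargement
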